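import Pool.Agent.Helper51.GP.B
import Pool.Agent.Helper51.GP.C3
import Pool.Agent.Helper51.NP.F0

/-!
# Project GP (MP_13b103_pr): a good end point for a supporting functional

Let `h x = 1`, `nl x ≤ 1`, `h ≤ nl`, `n = 1 / l ^ 2`.  The slab sum for `g = h` is at least `1 / C`;
every term is at most `exp (1 + l (n + C w) - l a w |q|₁)` (Peierls), so by interpolation one term
is at least `exp (- lam)`, `lam = A + 4 d log (1 / l)`.
-/

set_option autoImplicit false

namespace Pool.Agent.Helper46.PG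

open MeasureTheory ProbabilityTheory Filter Pool.Agent.Helper79.GR Pool.Agent.Helper79.GQ
open Pool.Agent.Helper51.NP Pool.Agent.Helper51.GP

variable {Ω : Type*} [MeasurableSpace Ω] {P : Measure Ω} {d : ℕ}

theorem interp {t A B l : ℝ} (ht : 0 < t) (hA : t ≤ Real.exp A) (hB : t ≤ Real.exp B)
    (h0 : 0 ≤ l) (h1 : l ≤ 1) : t ≤ Real.exp ((1 - l) * A + l * B) := by
  have h2 := (Real.log_le_iff_le_exp ht).2 hA
  have h3 := (Real.log_le_iff_le_exp ht).2 hB
  rw [← Real.log_le_iff_le_exp ht]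
  have h4 := mul_le_mul_of_nonneg_left h2 (sub_nonneg.2 h1)
  have h5 := mul_le_mul_of_nonneg_left h3 h0
  nlinarith

theorem n1_nsmul (w : ℕ) (q : V d) : n1 (w • q) = w * n1 q := by
  unfold n1
  rw [Finset.mul_sum]
  refine Finset.sum_congr rfl fun i _ => ?_
  have : (((w • q) i : ℤ) : ℝ) = (w : ℝ) * (q i : ℝ) := by simp
  rw [this, abs_mul, abs_of_nonneg (Nat.cast_nonneg w)]

/-- bounds for the side of the cells -/
theorem wd_bounds {l : ℝ} {b : ℕ} (hl : 0 < l) (hb : 1 ≤ b) (hlb : l * b ≤ 1) :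
    1 ≤ wd l b ∧ (wd l b : ℝ) ≤ 2 / (l * b) := by
  have hb0 : (0 : ℝ) < b := by
    have : 0 < b := hb
    exact_mod_cast this
  have hlb0 : 0 < l * b := mul_pos hl hb0
  refine ⟨Nat.one_le_iff_ne_zero.2 (Nat.ceil_pos.2 (by positivity)).ne', ?_⟩
  have h1 : (wd l b : ℝ) < 1 / (l * b) + 1 := Nat.ceil_lt_add_one (by positivity)
  have h2 : 1 ≤ 1 / (l * b) := by rwa [one_le_div hlb0]
  have h3 : 2 / (l * b) = 1 / (l * b) + 1 / (l * b) := by ring
  linarith

/-- the good end point -/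
theorem good_q (a : ℝ) (ha : 0 < a) (H : ℝ) : ∃ (C : ℕ) (A : ℝ), 1 ≤ C ∧ 1 ≤ A ∧
    ∀ (X : Edge d → Ω → ℝ) (ν : Measure ℝ) (δ : ℝ) (b : ℕ), Env P X ν δ b → Reg P X a → 1 ≤ b →
      ∀ (l : ℝ) (h : F d →L[ℝ] ℝ) (x : F d), 0 < l → l ≤ 1 / 2 → l * b ≤ 1 →
      4 * (C : ℝ) ≤ b → (∀ s : St d, |h (rv (sv s))| ≤ H) → h x = 1 → nl P X l x = 1 →
      ∃ q : V d, 1 / (2 * l ^ 2) ≤ h (rv q) ∧ n1 q ≤ A / l ^ 2 ∧
        Real.exp (-(A + 4 * d * Real.log (1 / l))) ≤
          Z P X l 0 q * Real.exp (l * h (rv q)) := by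
  obtain ⟨C, hC, hslab⟩ := slab P d H
  have hC1 : (1 : ℝ) ≤ C := by exact_mod_cast hC
  obtain ⟨A₀, hA₀⟩ : ∃ A₀ : ℝ, A₀ = 2 * (Real.log C + 3 + C + d * |Real.log (8 / a)|) := ⟨_, rfl⟩
  obtain ⟨A, hA⟩ : ∃ A : ℝ, A = A₀ + (1 / a) * (1 + 2 * C + A₀ + 4 * d + 1) := ⟨_, rfl⟩
  have hA00 : 0 ≤ A₀ := by
    rw [hA₀]
    have : 0 ≤ Real.log C := Real.log_nonneg hC1
    positivity
  have hAA₀ : A₀ ≤ A := by
    rw [hA]
    have : 0 ≤ (1 / a) * (1 + 2 * C + A₀ + 4 * d + 1) := by positivity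
    linarith
  have hA1 : 1 ≤ A := by
    have h1 : 0 ≤ Real.log C := Real.log_nonneg hC1
    have h2 : 0 ≤ (d : ℝ) * |Real.log (8 / a)| := by positivity
    have h3 : 1 ≤ A₀ := by
      rw [hA₀]
      linarith
    linarith
  refine ⟨C, A, hC, hA1, ?_⟩
  intro X ν δ b hE hR hb l h x hl hl2 hlb hbC hH hx hnx
  have hl1 : l ≤ 1 := by linarith
  have hb0 : (0 : ℝ) < b := by
    have : 0 < b := hb
    exact_mod_cast this
  have hb1 : (1 : ℝ) ≤ b := by exact_mod_cast hb
  obtain ⟨hw1, hw2⟩ := wd_bounds hl hb hlb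
  have hw1' : (1 : ℝ) ≤ wd l b := by exact_mod_cast hw1
  have hal : a ≤ 1 := hR.ale
  -- `C w ≤ n / 2`
  have hCw : C * (wd l b : ℝ) ≤ 1 / (2 * l ^ 2) := by
    have h1 : C * (wd l b : ℝ) ≤ C * (2 / (l * b)) := mul_le_mul_of_nonneg_left hw2 (by linarith)
    refine h1.trans ?_
    rw [← mul_div_assoc, div_le_div_iff₀ (by positivity) (by positivity)]
    have h2 : 4 * C * l ≤ b := by nlinarith
    nlinarith [mul_le_mul_of_nonneg_left h2 hl.le]
  have hn0 : 0 < 1 / l ^ 2 := by positivity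
  have hhalf : 1 / l ^ 2 = 1 / (2 * l ^ 2) + 1 / (2 * l ^ 2) := by
    field_simp
    norm_num
  -- the slab lemma
  have hs := hslab X ν δ b hE hb l h h x hl hlb hH hx (1 / l ^ 2) (by
        have : 0 < 1 / (2 * l ^ 2) := by positivity
        linarith)
  rw [hx, hnx, sub_self, mul_zero, Real.exp_zero, ENNReal.ofReal_one] at hs
  -- the Peierls bound for the terms
  have hterm : ∀ q : V d, |h (rv (wd l b • q)) - 1 / l ^ 2| ≤ C * (wd l b : ℝ) →
      Z P X l 0 (wd l b • q) * Real.exp (l * h (rv (wd l b • q))) ≤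
        Real.exp (1 + l * (1 / l ^ 2 + C * (wd l b : ℝ)) - l * (a * n1 (wd l b • q))) := by
    intro q hq
    have h1 := Z_le hE hR hl.le hl1 (wd l b • q)
    have h2 := (abs_le.1 hq).2
    have h3 : Real.exp (l * h (rv (wd l b • q))) ≤
        Real.exp (l * (1 / l ^ 2 + C * (wd l b : ℝ))) :=
      Real.exp_le_exp.2 (mul_le_mul_of_nonneg_left (by linarith) hl.le)
    have h4 : (2 : ℝ) ≤ Real.exp 1 := by
      have := Real.add_one_le_exp (1 : ℝ)
      linarith
    calc Z P X l 0 (wd l b • q) * Real.exp (l * h (rv (wd l b • q)))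
        ≤ (2 * Real.exp (-(l * (a * n1 (wd l b • q))))) *
          Real.exp (l * (1 / l ^ 2 + C * (wd l b : ℝ))) :=
          mul_le_mul h1 h3 (Real.exp_pos _).le (by positivity)
      _ ≤ (Real.exp 1 * Real.exp (-(l * (a * n1 (wd l b • q))))) *
          Real.exp (l * (1 / l ^ 2 + C * (wd l b : ℝ))) := by
          refine mul_le_mul_of_nonneg_right ?_ (Real.exp_pos _).le
          exact mul_le_mul_of_nonneg_right h4 (Real.exp_pos _).le
      _ = _ := by
          rw [← Real.exp_add, ← Real.exp_add]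
          congr 1
          ring
  obtain ⟨lam, hlam⟩ : ∃ lam : ℝ, lam = A₀ + 4 * d * Real.log (1 / l) := ⟨_, rfl⟩
  have hlogl : 0 ≤ Real.log (1 / l) := Real.log_nonneg (by rwa [one_le_div hl])
  have hlam0 : 0 ≤ lam := by
    rw [hlam]
    positivity
  -- one term is large
  have key : ∃ q : V d, |h (rv (wd l b • q)) - 1 / l ^ 2| ≤ C * (wd l b : ℝ) ∧
      Real.exp (-lam) ≤ Z P X l 0 (wd l b • q) * Real.exp (l * h (rv (wd l b • q))) := by
    by_contra hcon
    push Not at hcon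
    have hl2a : 0 < l ^ 2 * a := by positivity
    have hl2a1 : l ^ 2 * a ≤ 1 := by nlinarith
    have h1 : ∀ q : {q : V d // |h (rv (wd l b • q)) - 1 / l ^ 2| ≤ C * (wd l b : ℝ)},
        ENNReal.ofReal (Z P X l 0 (wd l b • q.1) * Real.exp (l * h (rv (wd l b • q.1)))) ≤
        ENNReal.ofReal (Real.exp (-(lam / 2) + 2 + C)) *
          ENNReal.ofReal (Real.exp (-(l ^ 2 * a * nr (rv q.1 - 0)))) := by
      intro q
      rw [← ENNReal.ofReal_mul (Real.exp_pos _).le, ← Real.exp_add]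
      refine ENNReal.ofReal_le_ofReal ?_
      have h2 := interp (mul_pos (Z_pos hE 0 _) (Real.exp_pos _)) (hcon q.1 q.2).le
        (hterm q.1 q.2) hl.le hl1
      refine h2.trans (Real.exp_le_exp.2 ?_)
      rw [sub_zero, nr_rv, n1_nsmul]
      have h3 : 0 ≤ n1 q.1 := n1_nonneg _
      have h4 : n1 q.1 ≤ (wd l b : ℝ) * n1 q.1 := by nlinarith
      have h5 : l ^ 2 * a * n1 q.1 ≤ l ^ 2 * a * ((wd l b : ℝ) * n1 q.1) :=
        mul_le_mul_of_nonneg_left h4 hl2a.le
      have h6 : l ^ 2 * (C * (wd l b : ℝ)) ≤ C := by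
        have h7 : l ^ 2 * (C * (wd l b : ℝ)) ≤ l ^ 2 * (1 / (2 * l ^ 2)) :=
          mul_le_mul_of_nonneg_left hCw (by positivity)
        have h8 : l ^ 2 * (1 / (2 * l ^ 2)) = 1 / 2 := by field_simp
        linarith
      have h7 : (1 - l) * -lam ≤ -(lam / 2) := by nlinarith
      have h8 : l * (1 + l * (1 / l ^ 2 + C * (wd l b : ℝ)) -
          l * (a * ((wd l b : ℝ) * n1 q.1))) = l + 1 + l ^ 2 * (C * (wd l b : ℝ)) -
          l ^ 2 * a * ((wd l b : ℝ) * n1 q.1) := by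
        field_simp
        ring
      rw [h8]
      linarith
    have h9 : (∑' q : {q : V d // |h (rv (wd l b • q)) - 1 / l ^ 2| ≤ C * (wd l b : ℝ)},
        ENNReal.ofReal (Z P X l 0 (wd l b • q.1) * Real.exp (l * h (rv (wd l b • q.1))))) ≤
        ENNReal.ofReal (Real.exp (-(lam / 2) + 2 + C)) *
          ENNReal.ofReal ((8 / (l ^ 2 * a)) ^ d) := by
      calc _ ≤ ∑' q : {q : V d // |h (rv (wd l b • q)) - 1 / l ^ 2| ≤ C * (wd l b : ℝ)},
            ENNReal.ofReal (Real.exp (-(lam / 2) + 2 + C)) *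
            ENNReal.ofReal (Real.exp (-(l ^ 2 * a * nr (rv q.1 - 0)))) :=
            ENNReal.tsum_le_tsum h1
        _ = ENNReal.ofReal (Real.exp (-(lam / 2) + 2 + C)) *
            ∑' q : {q : V d // |h (rv (wd l b • q)) - 1 / l ^ 2| ≤ C * (wd l b : ℝ)},
            ENNReal.ofReal (Real.exp (-(l ^ 2 * a * nr (rv q.1 - 0)))) := ENNReal.tsum_mul_left
        _ ≤ ENNReal.ofReal (Real.exp (-(lam / 2) + 2 + C)) *
            ∑' q : V d, ENNReal.ofReal (Real.exp (-(l ^ 2 * a * nr (rv q - 0)))) := by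
            gcongr
            exact ENNReal.tsum_comp_le_tsum_of_injective Subtype.val_injective
              (fun q : V d => ENNReal.ofReal (Real.exp (-(l ^ 2 * a * nr (rv q - 0)))))
        _ ≤ _ := by
            gcongr
            exact sum_exp_nr d (l ^ 2 * a) hl2a hl2a1 0
    have h10 : (1 : ENNReal) ≤ ENNReal.ofReal (C * (Real.exp (-(lam / 2) + 2 + C) *
        (8 / (l ^ 2 * a)) ^ d)) := by
      rw [ENNReal.ofReal_mul (by positivity), ENNReal.ofReal_mul (Real.exp_pos _).le]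
      exact hs.trans (mul_le_mul_right h9 _)
    rw [← ENNReal.ofReal_one, ENNReal.ofReal_le_ofReal_iff (by positivity)] at h10
    have h11 : (8 / (l ^ 2 * a)) ^ d = Real.exp (d * Real.log (8 / (l ^ 2 * a))) := by
      rw [Real.exp_nat_mul, Real.exp_log (by positivity)]
    have h12 : (C : ℝ) = Real.exp (Real.log C) := (Real.exp_log (by linarith)).symm
    have h13 : Real.log (8 / (l ^ 2 * a)) = Real.log (8 / a) + 2 * Real.log (1 / l) := by
      have h14 : 8 / (l ^ 2 * a) = (8 / a) * (1 / l) ^ 2 := by field_simp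
      rw [h14, Real.log_mul (by positivity) (by positivity), Real.log_pow]
      norm_num
    have h15 : C * (Real.exp (-(lam / 2) + 2 + C) * (8 / (l ^ 2 * a)) ^ d) < 1 := by
      rw [h11, h13]
      conv_lhs => rw [h12]
      rw [← Real.exp_add, ← Real.exp_add, Real.exp_lt_one_iff]
      have h16 : Real.log (8 / a) ≤ |Real.log (8 / a)| := le_abs_self _
      have h17 := mul_le_mul_of_nonneg_left h16 (Nat.cast_nonneg (α := ℝ) d)
      rw [← h12, hlam, hA₀]
      have h18 : -((2 * (Real.log C + 3 + C + d * |Real.log (8 / a)|) +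
          4 * d * Real.log (1 / l)) / 2) = -(Real.log C) - 3 - C - d * |Real.log (8 / a)| -
          2 * (d * Real.log (1 / l)) := by ring
      rw [h18, mul_add]
      linarith
    exact absurd h10 (not_le.2 h15)
  obtain ⟨q, hq1, hq2⟩ := key
  refine ⟨wd l b • q, ?_, ?_, ?_⟩
  · have h1 := (abs_le.1 hq1).1
    linarith
  · have h1 := hq2.trans (hterm q hq1)
    rw [Real.exp_le_exp] at h1
    have h2 : l * (a * n1 (wd l b • q)) ≤ lam + 1 + l * (1 / l ^ 2 + C * (wd l b : ℝ)) := by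
      linarith
    have h3 : l * Real.log (1 / l) ≤ 1 := by
      have h4 := Real.log_le_sub_one_of_pos (show 0 < 1 / l by positivity)
      have h5 : l * (1 / l - 1) = 1 - l := by field_simp
      nlinarith [mul_le_mul_of_nonneg_left h4 hl.le]
    have h4 : l * (lam + 1) ≤ A₀ + 4 * d + 1 := by
      rw [hlam]
      have h5 : l * A₀ ≤ A₀ := by nlinarith
      have h6 : (4 * d : ℝ) * (l * Real.log (1 / l)) ≤ 4 * d * 1 :=
        mul_le_mul_of_nonneg_left h3 (by positivity)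
      nlinarith
    have h5 : l ^ 2 * (C * (wd l b : ℝ)) ≤ C := by
      have h7 : l ^ 2 * (C * (wd l b : ℝ)) ≤ l ^ 2 * (1 / (2 * l ^ 2)) :=
        mul_le_mul_of_nonneg_left hCw (by positivity)
      have h8 : l ^ 2 * (1 / (2 * l ^ 2)) = 1 / 2 := by field_simp
      linarith
    have h6 : l ^ 2 * (a * n1 (wd l b • q)) ≤ A₀ + 4 * d + 1 + 1 + C := by
      have h7 := mul_le_mul_of_nonneg_left h2 hl.le
      have h8 : l * (l * (a * n1 (wd l b • q))) = l ^ 2 * (a * n1 (wd l b • q)) := by ring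
      have h9 : l * (lam + 1 + l * (1 / l ^ 2 + C * (wd l b : ℝ))) =
          l * (lam + 1) + 1 + l ^ 2 * (C * (wd l b : ℝ)) := by
        field_simp
        ring
      rw [h8, h9] at h7
      linarith
    rw [le_div_iff₀ (by positivity)]
    have h7 : n1 (wd l b • q) * l ^ 2 ≤ (1 / a) * (A₀ + 4 * d + 1 + 1 + C) := by
      rw [one_div, ← div_eq_inv_mul, le_div_iff₀ ha]
      linarith
    have h8 : (1 / a) * (A₀ + 4 * d + 1 + 1 + C) ≤ A := by
      rw [hA]
      have h9 : (1 / a) * (A₀ + 4 * d + 1 + 1 + C) ≤ (1 / a) * (1 + 2 * C + A₀ + 4 * d + 1) :=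
        mul_le_mul_of_nonneg_left (by linarith) (by positivity)
      linarith
    exact h7.trans h8
  · refine le_trans (Real.exp_le_exp.2 ?_) hq2
    rw [hlam]
    linarith

end Pool.Agent.Helper46.PG
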