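import Pool.Agent.Helper46.PG.Sep
import Pool.Agent.Helper46.PG.Cell

/-!
# Project GP (MP_13b103_pr): the norm `u` is at most the annealed norm, up to `b ^ 5 l`
-/

set_option autoImplicit false

namespace Pool.Agent.Helper46.PG

open MeasureTheory ProbabilityTheory Filter Pool.Agent.Helper79.GR Pool.Agent.Helper79.GQ
open Pool.Agent.Helper51.NP Pool.Agent.Helper51.GP

variable {Ω : Type*} [MeasurableSpace Ω] {P : Measure Ω} {d : ℕ} {X : ℕ → Edge d → Ω → ℝ}
  {ν : ℕ → Measure ℝ} {δ : ℕ → ℝ} {a K s : ℝ} {m C : ℕ} {u : F d → ℝ}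

theorem nrm_nl {X : Edge d → Ω → ℝ} {ν : Measure ℝ} {δ b l : ℝ} (hE : Env P X ν δ b)
    (hl : 0 < l) : Nrm δ b (fun x : F d => nl P X l x) where
  apos := hE.apos
  add := nl_add_le hE hl
  smul t ht x := by rw [nl_smul hE hl, abs_of_nonneg ht]
  even := nl_neg hE hl
  lo := Pool.Agent.Helper51.NP.le_nl hE hl
  hi := nl_le hE hl

theorem n1_sv (s : St d) : n1 (sv s) = 1 := by
  have h1 := sum_sv (0 : V d) s
  unfold n1
  have h2 : ∀ i, |((sv s i : ℤ) : ℝ)| = ((|(0 : V d) i - ((0 : V d) + sv s) i| : ℤ) : ℝ) := by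
    intro i
    rw [zero_add, Pi.zero_apply, zero_sub, abs_neg, Int.cast_abs]
  simp only [h2]
  rw [← Int.cast_sum, h1, Int.cast_one]

theorem K_nonneg (hu : Nrm a K u) (hd : 0 < d) : 0 < K := by
  have h1 := hu.lo (rv (sv (⟨0, hd⟩, true)))
  have h2 := hu.hi (rv (sv (⟨0, hd⟩, true)))
  rw [nr_rv, n1_sv, mul_one] at h1 h2
  linarith [hu.apos]

theorem u_le_nl (hF : Fam P X ν δ a m K u) (κ : ℕ) : ∃ C : ℕ, 1 ≤ C ∧ ∃ L₀ : ℕ,
    ∀ L b : ℕ, L₀ ≤ L → L ^ (m + 1) ≤ b → ∀ l : ℝ, Real.exp (-(κ * L)) ≤ l →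
      l * b ^ C ≤ 1 → ∀ x, u x ≤ nl P (X b) l x + b ^ C * l * nr x := by
  have ha : 0 < a := hF.nrm.apos
  obtain ⟨C, A, hC, hA, hgood⟩ := good_q (Ω := Ω) (P := P) (d := d) a ha K
  obtain ⟨K₃, hK₃⟩ : ∃ K₃ : ℝ, K₃ = hr a * (A + 1) + A + 4 * d * κ + |K| := ⟨_, rfl⟩
  obtain ⟨L₀, hL₀⟩ := exists_nat_ge (max (max (4 * (C : ℝ)) (2 * |K|)) (max K₃ (max A 2)))
  refine ⟨5, by norm_num, max L₀ ((2 * κ + 1) ^ m), ?_⟩
  intro L b hL hb l hll hlb
  have hL1 : L₀ ≤ L := (le_max_left _ _).trans hL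
  have hL2 : (2 * κ + 1) ^ m ≤ L := (le_max_right _ _).trans hL
  have hL1' : (L₀ : ℝ) ≤ L := by exact_mod_cast hL1
  have hq1 : 4 * (C : ℝ) ≤ L :=
    (((le_max_left _ _).trans (le_max_left _ _)).trans hL₀).trans hL1'
  have hq2 : 2 * |K| ≤ L := (((le_max_right _ _).trans (le_max_left _ _)).trans hL₀).trans hL1'
  have hq3 : K₃ ≤ L := (((le_max_left _ _).trans (le_max_right _ _)).trans hL₀).trans hL1'
  have hq4 : A ≤ L := ((((le_max_left _ _).trans (le_max_right _ _)).trans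
    (le_max_right _ _)).trans hL₀).trans hL1'
  have hq5 : 2 ≤ (L : ℝ) := ((((le_max_right _ _).trans (le_max_right _ _)).trans
    (le_max_right _ _)).trans hL₀).trans hL1'
  have hL3 : 2 ≤ L := by exact_mod_cast hq5
  have hLb : L ≤ b := le_trans (by
    calc L = L ^ 1 := (pow_one L).symm
      _ ≤ L ^ (m + 1) := Nat.pow_le_pow_right (by omega) (by omega)) hb
  have hLb' : (L : ℝ) ≤ b := by exact_mod_cast hLb
  have hb1 : 1 ≤ b := by omega
  have hb2 : (2 : ℝ) ≤ b := hq5.trans hLb'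
  have hb0 : (0 : ℝ) < b := by linarith
  have hl : 0 < l := (Real.exp_pos _).trans_le hll
  have hE := hF.env b hb1
  have hR := hF.reg b hb1
  have hb5 : (2 : ℝ) ≤ b ^ 5 := by
    calc (2 : ℝ) ≤ b := hb2
      _ = b ^ 1 := (pow_one _).symm
      _ ≤ b ^ 5 := pow_le_pow_right₀ (by linarith) (by norm_num)
  have hl2 : l ≤ 1 / 2 := by
    rw [le_div_iff₀ (by norm_num)]
    nlinarith
  have hl1 : l ≤ 1 := by linarith
  have hlb1 : l * b ≤ 1 := by
    refine le_trans (mul_le_mul_of_nonneg_left ?_ hl.le) hlb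
    calc (b : ℝ) = b ^ 1 := (pow_one _).symm
      _ ≤ b ^ 5 := pow_le_pow_right₀ (by linarith) (by norm_num)
  have hlog : Real.log (1 / l) ≤ κ * L := by
    rw [one_div, Real.log_inv]
    have h1 := Real.log_le_log (Real.exp_pos _) hll
    rw [Real.log_exp] at h1
    linarith
  have hlog0 : 0 ≤ Real.log (1 / l) := Real.log_nonneg (by rwa [one_le_div hl])
  -- the hypothesis of the separation lemma
  have hsep : ∀ x, u x ≤ (1 + 2 * l * b ^ 4) * nl P (X b) l x := by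
    refine separation hF.nrm (nrm_nl hE hl) (by positivity) ?_
    rintro h hh ⟨x, hx1, hx2⟩ hhK
    obtain ⟨q, h1, h2, h3⟩ := hgood (X b) (ν b) (δ b) b hE hR hb1 l h x hl hl2 hlb1
      (hq1.trans hLb') (fun s => by
        have := hhK (rv (sv s))
        rwa [nr_rv, n1_sv, mul_one] at this) hx1 hx2
    have hpos : 0 < h (rv q) := lt_of_lt_of_le (by positivity) h1
    refine ⟨rv q, hpos, ?_⟩
    -- Herbst
    have h4 := mm_le_of_Z hE hR (by exact_mod_cast hb1) hl hl1 q (h (rv q)) _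
      (Real.exp_pos _) h3
    rw [one_div (Real.exp _), ← Real.exp_neg, neg_neg, Real.log_exp] at h4
    -- the distance
    have h5 : n1 q ≤ Real.exp (((2 * κ + 1) * L : ℕ) : ℝ) := by
      refine h2.trans ?_
      rw [div_le_iff₀ (by positivity)]
      have h6 : Real.exp (-(κ * L)) ^ 2 ≤ l ^ 2 := pow_le_pow_left₀ (Real.exp_pos _).le hll 2
      have h7 : Real.exp (((2 * κ + 1) * L : ℕ) : ℝ) * Real.exp (-(κ * L)) ^ 2 =
          Real.exp L := by
        rw [← Real.exp_nat_mul, ← Real.exp_add]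
        congr 1
        push_cast
        ring
      have h8 : A ≤ Real.exp L := by
        have := Real.add_one_le_exp (L : ℝ)
        linarith
      calc A ≤ Real.exp L := h8
        _ = _ := h7.symm
        _ ≤ _ := mul_le_mul_of_nonneg_left h6 (Real.exp_pos _).le
    have h6 : ((2 * κ + 1) * L) ^ m ≤ b := by
      rw [mul_pow]
      calc (2 * κ + 1) ^ m * L ^ m ≤ L * L ^ m := Nat.mul_le_mul_right _ hL2
        _ = L ^ (m + 1) := by rw [pow_succ, mul_comm]
        _ ≤ b := hb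
    have h7 := hF.low ((2 * κ + 1) * L) b (by nlinarith) h6 q h5
    -- the sum of the errors
    have hhr : 0 ≤ hr a := by
      unfold hr
      positivity
    have hb3 : (1 : ℝ) ≤ (b : ℝ) ^ 3 := one_le_pow₀ (by linarith)
    have hbb3 : (b : ℝ) ≤ (b : ℝ) ^ 3 := by
      calc (b : ℝ) = b ^ 1 := (pow_one _).symm
        _ ≤ b ^ 3 := pow_le_pow_right₀ (by linarith) (by norm_num)
    have e1 : hr a * b ^ 3 * l * (n1 q + 1) ≤ hr a * (A + 1) * b ^ 3 / l := by
      have h8 : l * (n1 q + 1) ≤ (A + 1) / l := by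
        rw [le_div_iff₀ hl]
        have h9 : n1 q * l ^ 2 ≤ A := by rwa [← le_div_iff₀ (by positivity)]
        nlinarith
      calc hr a * b ^ 3 * l * (n1 q + 1) = hr a * b ^ 3 * (l * (n1 q + 1)) := by ring
        _ ≤ hr a * b ^ 3 * ((A + 1) / l) := mul_le_mul_of_nonneg_left h8 (by positivity)
        _ = _ := by ring
    have e2 : (A + 4 * d * Real.log (1 / l)) / l ≤ (A + 4 * d * κ) * b ^ 3 / l := by
      refine div_le_div_of_nonneg_right ?_ hl.le
      have h8 : Real.log (1 / l) ≤ κ * b ^ 3 :=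
        hlog.trans (mul_le_mul_of_nonneg_left (hLb'.trans hbb3) (Nat.cast_nonneg κ))
      have h9 : (4 * d : ℝ) * Real.log (1 / l) ≤ 4 * d * (κ * b ^ 3) :=
        mul_le_mul_of_nonneg_left h8 (by positivity)
      have h10 : A ≤ A * b ^ 3 := by nlinarith
      nlinarith
    have e3 : K * b ≤ |K| * b ^ 3 / l := by
      rw [le_div_iff₀ hl]
      have h8 : K * b ≤ |K| * b ^ 3 :=
        (mul_le_mul_of_nonneg_right (le_abs_self K) hb0.le).trans
          (mul_le_mul_of_nonneg_left hbb3 (abs_nonneg K))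
      have h9 : |K| * (b : ℝ) ^ 3 * l ≤ |K| * b ^ 3 * 1 :=
        mul_le_mul_of_nonneg_left hl1 (by positivity)
      rcases le_total 0 (K * b) with h10 | h10
      · nlinarith
      · have : K * b * l ≤ 0 := mul_nonpos_of_nonpos_of_nonneg h10 hl.le
        have : 0 ≤ |K| * (b : ℝ) ^ 3 := by positivity
        linarith
    have e4 : hr a * (A + 1) * b ^ 3 / l + (A + 4 * d * κ) * b ^ 3 / l + |K| * b ^ 3 / l ≤
        b ^ 4 / l := by
      rw [← add_div, ← add_div]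
      refine div_le_div_of_nonneg_right ?_ hl.le
      have h8 : K₃ * (b : ℝ) ^ 3 ≤ b * b ^ 3 :=
        mul_le_mul_of_nonneg_right (hq3.trans hLb') (by positivity)
      rw [hK₃] at h8
      calc _ = (hr a * (A + 1) + A + 4 * d * κ + |K|) * (b : ℝ) ^ 3 := by ring
        _ ≤ b * b ^ 3 := h8
        _ = b ^ 4 := by ring
    have e5 : (b : ℝ) ^ 4 / l ≤ 2 * l * b ^ 4 * h (rv q) := by
      have h8 : 2 * l * b ^ 4 * (1 / (2 * l ^ 2)) ≤ 2 * l * b ^ 4 * h (rv q) :=
        mul_le_mul_of_nonneg_left h1 (by positivity)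
      have h9 : 2 * l * (b : ℝ) ^ 4 * (1 / (2 * l ^ 2)) = b ^ 4 / l := by
        field_simp
      linarith
    linarith
  intro x
  have h1 := hsep x
  have h2 : nl P (X b) l x ≤ K * nr x :=
    ((nl_le_uu hE hl x).trans (hF.up b hb1 x)).trans (hF.nrm.hi x)
  have h3 : 0 ≤ nr x := nr_nonneg x
  have h4 : K * nr x ≤ |K| * nr x := mul_le_mul_of_nonneg_right (le_abs_self K) h3
  have h5 : 2 * l * b ^ 4 * nl P (X b) l x ≤ 2 * l * b ^ 4 * (|K| * nr x) :=
    mul_le_mul_of_nonneg_left (h2.trans h4) (by positivity)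
  have h6 : 2 * |K| * (b ^ 4 * l * nr x) ≤ b * (b ^ 4 * l * nr x) :=
    mul_le_mul_of_nonneg_right (hq2.trans hLb') (by positivity)
  calc u x ≤ (1 + 2 * l * b ^ 4) * nl P (X b) l x := h1
    _ = nl P (X b) l x + 2 * l * b ^ 4 * nl P (X b) l x := by ring
    _ ≤ nl P (X b) l x + 2 * l * b ^ 4 * (|K| * nr x) := by linarith
    _ = nl P (X b) l x + 2 * |K| * (b ^ 4 * l * nr x) := by ring
    _ ≤ nl P (X b) l x + b * (b ^ 4 * l * nr x) := by linarith
    _ = nl P (X b) l x + b ^ 5 * l * nr x := by ring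

end Pool.Agent.Helper46.PG
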