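import Pool.Agent.Helper79.GQ.LB
import Pool.Agent.Helper79.GR.GA

/-!
# Project GP (MP_13b103_pr): separation of two norms
-/

set_option autoImplicit false

namespace Pool.Agent.Helper46.PG

open Pool.Agent.Helper79.GR Pool.Agent.Helper79.GQ

variable {d : ℕ} {a K a' K' : ℝ} {u μ : F d → ℝ}

/-- Hahn-Banach: a supporting functional at `x₀` -/
theorem exists_supp (hu : Nrm a K u) (x₀ : F d) :
    ∃ ρ : F d →L[ℝ] ℝ, ρ x₀ = u x₀ ∧ ∀ x, ρ x ≤ u x := by
  obtain ⟨ρ, h1, h2, -⟩ := exists_support u hu.add hu.smul hu.nonneg x₀ 0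
    (by rw [hu.zero, add_zero, add_zero])
  exact ⟨LinearMap.toContinuousLinearMap ρ, h2, h1⟩

theorem isCompact_nr : IsCompact {x : F d | nr x = 1} := by
  have hc : Continuous fun x : F d => nr x := by
    unfold nr
    fun_prop
  refine Metric.isCompact_of_isClosed_isBounded (isClosed_eq hc continuous_const) ?_
  refine (Metric.isBounded_closedBall (x := (0 : F d)) (r := 1)).subset fun x hx => ?_
  rw [mem_closedBall_zero_iff]
  exact (norm_le_nr x).trans (le_of_eq hx)

/-- if every linear functional supporting the norm `μ` has a point at which `u` is at most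
`(1 + ε)` times the functional, then `u ≤ (1 + ε) μ` -/
theorem separation (hu : Nrm a K u) (hμ : Nrm a' K' μ) {ε : ℝ}
    (hε : 0 ≤ ε)
    (H : ∀ h : F d →L[ℝ] ℝ, (∀ x, h x ≤ μ x) → (∃ x, h x = 1 ∧ μ x = 1) →
      (∀ x, |h x| ≤ K * nr x) → ∃ q, 0 < h q ∧ u q ≤ (1 + ε) * h q) (x : F d) :
    u x ≤ (1 + ε) * μ x := by
  by_contra hcon
  push Not at hcon
  have hx0 : x ≠ 0 := by
    rintro rfl
    rw [hu.zero, hμ.zero, mul_zero] at hcon
    exact lt_irrefl _ hcon
  obtain ⟨ρ, hρx, hρ⟩ := exists_supp hu x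
  -- normalisation
  have hnx : 0 < nr x := by
    rcases (nr_nonneg x).lt_or_eq with h | h
    · exact h
    · exfalso
      apply hx0
      have h1 := norm_le_nr x
      rw [← h] at h1
      exact norm_le_zero_iff.1 h1
  have hne : ({x : F d | nr x = 1} : Set (F d)).Nonempty := by
    refine ⟨(nr x)⁻¹ • x, ?_⟩
    rw [Set.mem_setOf_eq, nr_smul, abs_of_pos (inv_pos.2 hnx), inv_mul_cancel₀ hnx.ne']
  have hpos : ∀ y : F d, nr y = 1 → 0 < μ y := by
    intro y hy
    have h1 := hμ.lo y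
    rw [hy, mul_one] at h1
    exact hμ.apos.trans_le h1
  obtain ⟨x₁, hx₁, hmax⟩ := isCompact_nr.exists_isMaxOn hne
    (f := fun y : F d => ρ y / μ y) (by
      refine ContinuousOn.div ρ.continuous.continuousOn hμ.continuous.continuousOn ?_
      intro y hy
      exact (hpos y hy).ne')
  obtain ⟨θ, hθ⟩ : ∃ θ : ℝ, θ = ρ x₁ / μ x₁ := ⟨_, rfl⟩
  have hμ1 := hpos x₁ hx₁
  -- the functional is at most `θ μ`
  have hbd : ∀ y : F d, y ≠ 0 → ρ y ≤ θ * μ y := by
    intro y hy
    have hny : 0 < nr y := by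
      rcases (nr_nonneg y).lt_or_eq with h | h
      · exact h
      · exfalso
        apply hy
        have h1 := norm_le_nr y
        rw [← h] at h1
        exact norm_le_zero_iff.1 h1
    have h1 : nr ((nr y)⁻¹ • y) = 1 := by
      rw [nr_smul, abs_of_pos (inv_pos.2 hny), inv_mul_cancel₀ hny.ne']
    have h2 : ρ ((nr y)⁻¹ • y) / μ ((nr y)⁻¹ • y) ≤ θ := by
      rw [hθ]
      exact hmax h1
    rw [map_smul, hμ.smul _ (inv_pos.2 hny).le, smul_eq_mul,
      mul_div_mul_left _ _ (inv_pos.2 hny).ne', div_le_iff₀ (hμ.pos hy)] at h2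
    exact h2
  have hθ1 : 1 + ε < θ := by
    have h1 := hbd x hx0
    rw [hρx] at h1
    have h2 := hμ.pos hx0
    by_contra h3
    push Not at h3
    have h4 := mul_le_mul_of_nonneg_right h3 h2.le
    linarith
  have hθ0 : 0 < θ := by linarith
  obtain ⟨q, hq0, hq⟩ := H (θ⁻¹ • ρ) (fun y => by
      rw [smul_apply, smul_eq_mul]
      by_cases hy : y = 0
      · rw [hy, map_zero, mul_zero, hμ.zero]
      · rw [inv_mul_le_iff₀ hθ0]
        exact hbd y hy)
    ⟨(μ x₁)⁻¹ • x₁, by
      rw [smul_apply, map_smul, smul_eq_mul, smul_eq_mul, hθ]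
      have h1 : ρ x₁ ≠ 0 := by
        intro h1
        rw [hθ, h1, zero_div] at hθ0
        exact lt_irrefl _ hθ0
      field_simp, by
      rw [hμ.smul _ (inv_pos.2 hμ1).le, inv_mul_cancel₀ hμ1.ne']⟩
    (fun y => by
      rw [smul_apply, smul_eq_mul, abs_mul, abs_of_pos (inv_pos.2 hθ0)]
      have h1 : |ρ y| ≤ K * nr y := by
        rw [abs_le]
        constructor
        · have h2 := hρ (-y)
          rw [map_neg] at h2
          have h3 := hu.hi (-y)
          rw [nr_neg] at h3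
          linarith
        · exact (hρ y).trans (hu.hi y)
      have h2 : θ⁻¹ ≤ 1 := inv_le_one_of_one_le₀ (by linarith)
      calc θ⁻¹ * |ρ y| ≤ 1 * |ρ y| := mul_le_mul_of_nonneg_right h2 (abs_nonneg _)
        _ = |ρ y| := one_mul _
        _ ≤ K * nr y := h1)
  rw [smul_apply, smul_eq_mul] at hq0 hq
  have h5 := hρ q
  have h6 : 0 < ρ q := by
    by_contra h7
    push Not at h7
    have := mul_nonpos_of_nonneg_of_nonpos (inv_pos.2 hθ0).le h7
    linarith
  have h8 : (1 + ε) * (θ⁻¹ * ρ q) < ρ q := by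
    rw [← mul_assoc, ← div_eq_mul_inv]
    have : (1 + ε) / θ < 1 := by rwa [div_lt_one hθ0]
    calc (1 + ε) / θ * ρ q < 1 * ρ q := mul_lt_mul_of_pos_right this h6
      _ = ρ q := one_mul _
  linarith

end Pool.Agent.Helper46.PG
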